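import Pool.Agent.Helper17.SA.St

set_option autoImplicit false

namespace Pool.Agent.Helper58.SA

open Equiv Pool.Agent.Helper17.SA

/-- A finite geometric sum from `1` on. -/
private theorem geo (a : ℝ) (ha0 : 0 ≤ a) (ha1 : a < 1) (n : ℕ) :
    ∑ k ∈ Finset.Icc 1 n, a ^ k ≤ a / (1 - a) := by
  have h1 : 0 < 1 - a := by linarith
  have key : ∀ m : ℕ, ∑ k ∈ Finset.Icc 1 m, a ^ k = (a - a ^ (m + 1)) / (1 - a) := by
    intro m
    induction m with
    | zero => simp
    | succ m ih =>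
      rw [Finset.sum_Icc_succ_top (by omega), ih]
      field_simp
      ring
  rw [key]
  apply div_le_div_of_nonneg_right _ h1.le
  have : 0 ≤ a ^ (n + 1) := pow_nonneg ha0 _
  linarith

private theorem desc_pos (n k : ℕ) (hk : k ≤ n) : (1 : ℝ) ≤ ((n.descFactorial k : ℕ) : ℝ) := by
  have : 0 < n.descFactorial k := Nat.descFactorial_pos.mpr hk
  exact_mod_cast this

private theorem desc_ge (n k : ℕ) (hk1 : 1 ≤ k) (hk : k ≤ n) :
    (n : ℝ) ≤ ((n.descFactorial k : ℕ) : ℝ) := by
  have : n ≤ n.descFactorial k := by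
    obtain ⟨j, rfl⟩ : ∃ j, k = j + 1 := ⟨k - 1, by omega⟩
    induction j with
    | zero => simp
    | succ j ih =>
      have h1 := ih (by omega) (by omega)
      rw [Nat.descFactorial_succ]
      calc n ≤ n.descFactorial (j + 1) := h1
        _ = 1 * n.descFactorial (j + 1) := (one_mul _).symm
        _ ≤ (n - (j + 1)) * n.descFactorial (j + 1) := Nat.mul_le_mul_right _ (by omega)
  exact_mod_cast this

/-- The sum in `StANP` is at most `(9/4) a / ((1 - a) D ^ 2)` when all falling factorials are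
at least `D ≥ 1`. -/
private theorem main_bound (a D : ℝ) (n : ℕ) (ha0 : 0 ≤ a) (ha1 : a < 1) (hD : 1 ≤ D)
    (h : ∀ k, 1 ≤ k → k ≤ n → D ≤ ((n.descFactorial k : ℕ) : ℝ)) :
    ∑ k ∈ Finset.Icc 1 n, (9 / 4) * a ^ k / (((n.descFactorial k : ℕ) : ℝ)) ^ 2 ≤
      (9 / 4) * (a / (1 - a)) / D ^ 2 := by
  have h1 : ∑ k ∈ Finset.Icc 1 n, (9 / 4) * a ^ k / (((n.descFactorial k : ℕ) : ℝ)) ^ 2 ≤
      ∑ k ∈ Finset.Icc 1 n, (9 / 4) * a ^ k / D ^ 2 := by
    apply Finset.sum_le_sum
    intro k hk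
    rw [Finset.mem_Icc] at hk
    apply div_le_div_of_nonneg_left
    · have := pow_nonneg ha0 k
      linarith
    · positivity
    · exact pow_le_pow_left₀ (by linarith) (h k hk.1 hk.2) 2
  refine h1.trans ?_
  rw [← Finset.sum_div, ← Finset.mul_sum]
  apply div_le_div_of_nonneg_right _ (by positivity)
  apply mul_le_mul_of_nonneg_left (geo a ha0 ha1 n) (by norm_num)

private theorem fact_ge : ∀ p : ℕ, 11 ≤ p → 1000 * (p - 1) ≤ (p - 2).factorial := by
  intro p hp
  obtain ⟨j, rfl⟩ : ∃ j, p = j + 11 := ⟨p - 11, by omega⟩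
  induction j with
  | zero => decide
  | succ j ih =>
    have h1 := ih (by omega)
    have e1 : j + 1 + 11 - 2 = (j + 11 - 2) + 1 := by omega
    rw [e1, Nat.factorial_succ]
    have e2 : j + 1 + 11 - 1 = j + 11 := by omega
    rw [e2]
    calc 1000 * (j + 11) ≤ 2 * (1000 * (j + 11 - 1)) := by omega
      _ ≤ (j + 11 - 2 + 1) * (1000 * (j + 11 - 1)) := Nat.mul_le_mul_right _ (by omega)
      _ ≤ (j + 11 - 2 + 1) * (j + 11 - 2).factorial := Nat.mul_le_mul_left _ h1

theorem pA57 : StANP → StA57 := by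
  intro hA
  refine ⟨?_, ?_, ?_⟩
  · intro m hm
    have h := hA m 5 (by norm_num)
    have hn : 30 ≤ m / 5 := by omega
    have e : (((5 : ℕ) : ℝ) - 1) / ((5 - 2).factorial : ℝ) = 2 / 3 := by
      norm_num [Nat.factorial]
    rw [e] at h
    have hb := main_bound (2 / 3) (30 : ℝ) (m / 5) (by norm_num) (by norm_num) (by norm_num)
      (by
        intro k hk1 hk2
        have h1 := desc_ge (m / 5) k hk1 hk2
        have h2 : (30 : ℝ) ≤ ((m / 5 : ℕ) : ℝ) := by exact_mod_cast hn
        linarith)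
    have hf : (0 : ℝ) ≤ (m.factorial : ℝ) := by positivity
    have h3 := h.trans (mul_le_mul_of_nonneg_left hb hf)
    have h4 : (100 : ℝ) * (W (RT 5) 5 m : ℝ) ≤ (m.factorial : ℝ) := by
      have : (9 : ℝ) / 4 * (2 / 3 / (1 - 2 / 3)) / 30 ^ 2 = 1 / 200 := by norm_num
      rw [this] at h3
      linarith
    exact_mod_cast h4
  · intro m
    have h := hA m 7 (by norm_num)
    have e : (((7 : ℕ) : ℝ) - 1) / ((7 - 2).factorial : ℝ) = 1 / 20 := by
      norm_num [Nat.factorial]
    rw [e] at h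
    have hb := main_bound (1 / 20) (1 : ℝ) (m / 7) (by norm_num) (by norm_num) (by norm_num)
      (fun k hk1 hk2 => desc_pos (m / 7) k hk2)
    have hf : (0 : ℝ) ≤ (m.factorial : ℝ) := by positivity
    have h3 := h.trans (mul_le_mul_of_nonneg_left hb hf)
    have h4 : (8 : ℝ) * (W (RT 7) 7 m : ℝ) ≤ (m.factorial : ℝ) := by
      have : (9 : ℝ) / 4 * (1 / 20 / (1 - 1 / 20)) / 1 ^ 2 = 9 / 76 := by norm_num
      rw [this] at h3
      linarith
    exact_mod_cast h4
  · intro m p hp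
    have h := hA m p (by omega)
    have hF := fact_ge p hp
    set F : ℝ := ((p - 2).factorial : ℝ) with hFdef
    have hFpos : 0 < F := by
      rw [hFdef]
      exact_mod_cast Nat.factorial_pos _
    have hp1 : (1 : ℝ) ≤ (p : ℝ) - 1 := by
      have : (11 : ℝ) ≤ (p : ℝ) := by exact_mod_cast hp
      linarith
    have hF' : 1000 * ((p : ℝ) - 1) ≤ F := by
      have h1 : ((1000 * (p - 1) : ℕ) : ℝ) ≤ (((p - 2).factorial : ℕ) : ℝ) := by
        exact_mod_cast hF
      rw [Nat.cast_mul, Nat.cast_sub (by omega)] at h1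
      push_cast at h1
      exact h1
    set a : ℝ := ((p : ℝ) - 1) / F with hadef
    have ha0 : 0 ≤ a := by rw [hadef]; positivity
    have ha1 : a ≤ 1 / 1000 := by
      rw [hadef, div_le_iff₀ hFpos]
      linarith
    have hb := main_bound a (1 : ℝ) (m / p) ha0 (by linarith) (by norm_num)
      (fun k hk1 hk2 => desc_pos (m / p) k hk2)
    have hf : (0 : ℝ) ≤ (m.factorial : ℝ) := by positivity
    have h3 := h.trans (mul_le_mul_of_nonneg_left hb hf)
    have h5 : (9 / 4 : ℝ) * (a / (1 - a)) / 1 ^ 2 ≤ 3 * a := by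
      have h1a : 0 < 1 - a := by linarith
      have : a / (1 - a) ≤ (4 / 3) * a := by
        rw [div_le_iff₀ h1a]
        nlinarith
      linarith
    have h6 : (W (RT p) p m : ℝ) ≤ (m.factorial : ℝ) * (3 * a) :=
      h3.trans (mul_le_mul_of_nonneg_left h5 hf)
    have h7 : F * (W (RT p) p m : ℝ) ≤ 3 * ((p : ℝ) - 1) * (m.factorial : ℝ) := by
      have : F * a = (p : ℝ) - 1 := by
        rw [hadef]
        field_simp
      calc F * (W (RT p) p m : ℝ) ≤ F * ((m.factorial : ℝ) * (3 * a)) :=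
            mul_le_mul_of_nonneg_left h6 hFpos.le
        _ = 3 * (F * a) * (m.factorial : ℝ) := by ring
        _ = 3 * ((p : ℝ) - 1) * (m.factorial : ℝ) := by rw [this]
    have h8 : (((p - 2).factorial * W (RT p) p m : ℕ) : ℝ) ≤
        ((3 * (p - 1) * m.factorial : ℕ) : ℝ) := by
      rw [Nat.cast_mul, Nat.cast_mul, Nat.cast_mul, Nat.cast_sub (by omega)]
      push_cast
      exact h7
    exact_mod_cast h8

end Pool.Agent.Helper58.SA
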