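import Pool.Agent.Helper17.SA.St

set_option autoImplicit false

namespace Pool.Agent.Helper58.SA

open Equiv Pool.Agent.Helper17.SA

private theorem sum_vanish (N : ℕ) (R : ℕ → ℕ → ℕ) (n1 n2 n k : ℕ) (h : n1 + n2 ≤ n) (hn : n ≤ N)
    (hk : N < k) :
    ∑ i ∈ Finset.range (k + 1), (if i ≤ n1 ∧ k - i ≤ n2 then R n1 i * R n2 (k - i) else 0) ≤
      R n k := by
  have : ∑ i ∈ Finset.range (k + 1), (if i ≤ n1 ∧ k - i ≤ n2 then R n1 i * R n2 (k - i) else 0)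
      = 0 := by
    apply Finset.sum_eq_zero
    intro i _
    rw [if_neg]
    rintro ⟨h1, h2⟩
    omega
  rw [this]
  exact Nat.zero_le _

private theorem fin_A2 : ∀ n < 11, ∀ n1 < 11, ∀ n2 < 11, ∀ k < 11, n1 + n2 ≤ n →
    ∑ i ∈ Finset.range (k + 1), (if i ≤ n1 ∧ k - i ≤ n2 then A2 n1 i * A2 n2 (k - i) else 0) ≤
      A2 n k := by
  decide +kernel

private theorem fin_A3 : ∀ n < 8, ∀ n1 < 8, ∀ n2 < 8, ∀ k < 8, n1 + n2 ≤ n →
    ∑ i ∈ Finset.range (k + 1), (if i ≤ n1 ∧ k - i ≤ n2 then A3 n1 i * A3 n2 (k - i) else 0) ≤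
      A3 n k := by
  decide +kernel

private theorem one_A2 : ∀ n < 11, 1 ≤ A2 n 0 := by decide +kernel

private theorem one_A3 : ∀ n < 8, 1 ≤ A3 n 0 := by decide +kernel

private theorem four_A2 : ∀ i < 4, 1 ≤ i →
    A2 (2 ^ (i - 1)) (2 ^ (i - 1)) * A2 (2 ^ i - 2 ^ (i - 1)) (2 ^ i - 2 ^ (i - 1)) +
      (2 - 1) * 2 ^ (2 ^ i - 1) ≤ A2 (2 ^ i) (2 ^ i) := by decide +kernel

private theorem four_A3 : ∀ i < 2, 1 ≤ i →
    A3 (3 ^ (i - 1)) (3 ^ (i - 1)) * A3 (3 ^ i - 3 ^ (i - 1)) (3 ^ i - 3 ^ (i - 1)) +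
      (3 - 1) * 3 ^ (3 ^ i - 1) ≤ A3 (3 ^ i) (3 ^ i) := by decide +kernel

theorem pGDX : StGDX := by
  refine ⟨⟨?_, ?_, ?_, ?_⟩, ⟨?_, ?_, ?_, ?_⟩⟩
  · intro n hn
    exact one_A2 n (by omega)
  · intro n1 n2 n k h hn
    rcases Nat.lt_or_ge 10 k with hk | hk
    · exact sum_vanish 10 A2 n1 n2 n k h hn hk
    · exact fin_A2 n (by omega) n1 (by omega) n2 (by omega) k (by omega) h
  · intro _
    decide +kernel
  · intro i h1 h2
    have hi : i < 4 := by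
      by_contra hc
      have : 2 ^ 4 ≤ 2 ^ i := Nat.pow_le_pow_right (by norm_num) (by omega)
      omega
    exact four_A2 i hi h1
  · intro n hn
    exact one_A3 n (by omega)
  · intro n1 n2 n k h hn
    rcases Nat.lt_or_ge 7 k with hk | hk
    · exact sum_vanish 7 A3 n1 n2 n k h hn hk
    · exact fin_A3 n (by omega) n1 (by omega) n2 (by omega) k (by omega) h
  · intro _
    decide +kernel
  · intro i h1 h2
    have hi : i < 2 := by
      by_contra hc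
      have : 3 ^ 2 ≤ 3 ^ i := Nat.pow_le_pow_right (by norm_num) (by omega)
      omega
    exact four_A3 i hi h1

end Pool.Agent.Helper58.SA
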